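import Pool.Agent.U916.GN.Pin

/-!
# Elements of small non-square norm: intervals of radicands
-/

set_option autoImplicit false

namespace Pool.Agent.U916.GN

/-- `x ^ 2 - d y ^ 2` takes a non-square value of absolute value at most `B` with `1 ≤ y ≤ Y`. -/
def Exc (d : ℤ) (B Y : ℝ) : Prop := ∃ N x y : ℤ, ¬ IsSquare N ∧ |(N : ℝ)| ≤ B ∧
  x ^ 2 - d * y ^ 2 = N ∧ 1 ≤ y ∧ (y : ℝ) ≤ Y

/-- division by the greatest common divisor -/
theorem exc_coprime {d : ℤ} {B Y : ℝ} (h : Exc d B Y) : ∃ N x y : ℤ, ¬ IsSquare N ∧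
    |(N : ℝ)| ≤ B ∧ 0 ≤ x ∧ IsCoprime x y ∧ x ^ 2 - d * y ^ 2 = N ∧ 1 ≤ y ∧ (y : ℝ) ≤ Y := by
  obtain ⟨N, x, y, hN, hB, he, hy1, hyY⟩ := h
  have hy0 : y ≠ 0 := by omega
  obtain ⟨g, hg⟩ : ∃ g : ℤ, g = Int.gcd x y := ⟨_, rfl⟩
  have hg0 : 0 < g := by
    rw [hg]
    exact_mod_cast Int.gcd_pos_of_ne_zero_right x hy0
  obtain ⟨x', hx'⟩ : g ∣ x := by rw [hg]; exact Int.gcd_dvd_left _ _
  obtain ⟨y', hy'⟩ : g ∣ y := by rw [hg]; exact Int.gcd_dvd_right _ _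
  have hcop : IsCoprime x' y' := by
    have h1 := Int.gcd_eq_gcd_ab x y
    rw [← hg, hx', hy'] at h1
    have h2 : g * 1 = g * (x' * Int.gcdA (g * x') (g * y') + y' * Int.gcdB (g * x') (g * y')) := by
      linear_combination h1
    have h3 := mul_left_cancel₀ hg0.ne' h2
    exact ⟨Int.gcdA (g * x') (g * y'), Int.gcdB (g * x') (g * y'), by linear_combination -h3⟩
  have hNN : N = g ^ 2 * (x' ^ 2 - d * y' ^ 2) := by
    rw [← he, hx', hy']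
    ring
  have hg1 : (1 : ℤ) ≤ g ^ 2 := by nlinarith
  have hy'1 : 1 ≤ y' := by
    have : 0 < g * y' := by omega
    by_contra hc
    have : y' ≤ 0 := by omega
    nlinarith
  refine ⟨x' ^ 2 - d * y' ^ 2, |x'|, y', ?_, ?_, abs_nonneg _, ?_, ?_, hy'1, ?_⟩
  · rintro ⟨r, hr⟩
    apply hN
    rw [hNN, hr]
    exact ⟨g * r, by ring⟩
  · refine le_trans ?_ hB
    rw [hNN]
    push_cast
    rw [abs_mul]
    have h1 : (1 : ℝ) ≤ |(g : ℝ) ^ 2| := by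
      rw [abs_of_nonneg (by positivity)]
      exact_mod_cast hg1
    have h2 := abs_nonneg ((x' : ℝ) ^ 2 - d * (y' : ℝ) ^ 2)
    nlinarith
  · rcases abs_choice x' with h | h
    · rwa [h]
    · rw [h]
      exact hcop.neg_left
  · rw [sq_abs]
  · refine le_trans ?_ hyY
    have : y' ≤ y := by rw [hy']; nlinarith
    exact_mod_cast this

/-- the number of the exceptional radicands in an interval -/
theorem count : ∃ C : ℝ, 1 ≤ C ∧ ∀ (D σ B H : ℝ) (m : ℕ), C ≤ D → 1 ≤ m → 0 ≤ σ →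
    2 * (2 * σ + 1) ^ 2 ≤ m → C * m ≤ Real.log D → 0 ≤ B → B ≤ D ^ ((1 : ℝ) / 8) → 0 ≤ H → H ≤ D →
    ({d : ℤ | D < d ∧ (d : ℝ) ≤ D + H ∧ Exc d B (D ^ σ)}.ncard : ℝ) ≤
      (H / D ^ (1 / (8 * (m : ℝ))) + 1) * (2 * σ * Real.log D + 1) * (2 * B + 1) *
        (C * D ^ (1 / (16 * (m : ℝ))) * ((m : ℝ) ^ 2 * Real.log D) ^ 3) := by
  obtain ⟨C, hC1, hC⟩ := pin
  refine ⟨C, hC1, ?_⟩
  intro D σ B H m hD hm hσ hm2 hCm hB0 hBD hH0 hHD
  have hD1 : 1 ≤ D := by linarith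
  have hD0 : 0 < D := by linarith
  obtain ⟨L, hL⟩ : ∃ L : ℝ, L = D ^ (1 / (8 * (m : ℝ))) := ⟨_, rfl⟩
  have hL0 : 0 < L := by
    rw [hL]
    exact Real.rpow_pos_of_pos hD0 _
  obtain ⟨W, hW⟩ : ∃ W : ℝ, W = C * D ^ (1 / (16 * (m : ℝ))) * ((m : ℝ) ^ 2 * Real.log D) ^ 3 :=
    ⟨_, rfl⟩
  rw [← hL, ← hW]
  have hlogD : 0 ≤ Real.log D := Real.log_nonneg hD1
  have hW0 : 0 ≤ W := by
    rw [hW]
    have : 0 ≤ D ^ (1 / (16 * (m : ℝ))) := Real.rpow_nonneg hD0.le _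
    positivity
  obtain ⟨S, hS⟩ : ∃ S : ℕ → ℕ → ℤ → Set ℤ, S = fun (j i : ℕ) (N : ℤ) => {d : ℤ | D + j * L ≤ d ∧
    (d : ℝ) ≤ D + j * L + L ∧ D ≤ d ∧ (d : ℝ) ≤ 2 * D ∧ Sol d N (2 ^ i)} := ⟨_, rfl⟩
  have hSf : ∀ (j i : ℕ) (N : ℤ), (S j i N).Finite := by
    intro j i N
    refine (Set.finite_Icc ⌈D⌉ ⌊2 * D⌋).subset ?_
    rw [hS]
    rintro d ⟨_, _, h3, h4, _⟩
    exact ⟨Int.ceil_le.2 h3, Int.le_floor.2 h4⟩
  have hSb : ∀ (j i : ℕ) (N : ℤ), (2 : ℝ) ^ i ≤ D ^ σ → ¬ IsSquare N → |(N : ℝ)| ≤ B →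
      (((hSf j i N).toFinset).card : ℝ) ≤ W := by
    intro j i N hi hN hNB
    rw [hW]
    refine hC D (2 ^ i) σ m N _ hD hm hσ hm2 hCm (one_le_pow₀ (by norm_num)) hi hN (hNB.trans hBD)
      ?_ ?_
    · intro d hd
      rw [Set.Finite.mem_toFinset, hS] at hd
      exact ⟨hd.2.2.1, hd.2.2.2.1, hd.2.2.2.2⟩
    · intro d hd d' hd'
      rw [Set.Finite.mem_toFinset, hS] at hd hd'
      rw [← hL, abs_le]
      constructor <;> linarith [hd.1, hd.2.1, hd'.1, hd'.2.1]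
  -- the index set
  classical
  obtain ⟨J, hJ⟩ : ∃ J : Finset (ℕ × ℕ × ℤ), J = Finset.range (⌊H / L⌋₊ + 1) ×ˢ
    ((Finset.range (⌊2 * σ * Real.log D⌋₊ + 1)).filter (fun i => (2 : ℝ) ^ i ≤ D ^ σ) ×ˢ
    (Finset.Icc (-(⌊B⌋₊ : ℤ)) ⌊B⌋₊).filter (fun N => ¬ IsSquare N)) := ⟨_, rfl⟩
  have hcov : {d : ℤ | D < d ∧ (d : ℝ) ≤ D + H ∧ Exc d B (D ^ σ)} ⊆
      ((J.biUnion fun p => (hSf p.1 p.2.1 p.2.2).toFinset : Finset ℤ) : Set ℤ) := by
    rintro d ⟨h1, h2, h3⟩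
    obtain ⟨N, x, y, hN, hNB, hx0, hcop, heq, hy1, hy⟩ := exc_coprime h3
    obtain ⟨n, rfl⟩ : ∃ n : ℕ, y = n := ⟨y.toNat, by omega⟩
    have hn : n ≠ 0 := by
      rintro rfl
      simp at hy1
    obtain ⟨i, hi⟩ : ∃ i : ℕ, i = Nat.log 2 n := ⟨_, rfl⟩
    have hi1 : 2 ^ i ≤ n := by
      rw [hi]
      exact Nat.pow_log_le_self 2 hn
    have hi2 : n < 2 ^ (i + 1) := by
      rw [hi]
      exact Nat.lt_pow_succ_log_self (by norm_num) n
    have hi3 : (2 : ℝ) ^ i ≤ n := by exact_mod_cast hi1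
    have hi4 : (n : ℝ) < 2 * 2 ^ i := by
      have : (n : ℝ) < 2 ^ (i + 1) := by exact_mod_cast hi2
      rw [pow_succ] at this
      linarith
    have hyn : (n : ℝ) ≤ D ^ σ := by exact_mod_cast hy
    have hi5 : (2 : ℝ) ^ i ≤ D ^ σ := hi3.trans hyn
    have hi6 : (i : ℝ) ≤ 2 * σ * Real.log D := by
      have e1 := Real.log_le_log (by positivity) hi5
      rw [Real.log_pow, Real.log_rpow hD0] at e1
      have e2 : (1 : ℝ) / 2 ≤ Real.log 2 := by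
        have := Real.log_two_gt_d9
        linarith
      have e3 : (i : ℝ) * (1 / 2) ≤ i * Real.log 2 :=
        mul_le_mul_of_nonneg_left e2 (Nat.cast_nonneg i)
      linarith
    obtain ⟨j, hj⟩ : ∃ j : ℕ, j = ⌊((d : ℝ) - D) / L⌋₊ := ⟨_, rfl⟩
    have hj0 : 0 ≤ ((d : ℝ) - D) / L := div_nonneg (by linarith) hL0.le
    have hj1 : (j : ℝ) ≤ ((d : ℝ) - D) / L := by
      rw [hj]
      exact Nat.floor_le hj0
    have hj2 : ((d : ℝ) - D) / L < j + 1 := by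
      rw [hj]
      exact Nat.lt_floor_add_one _
    rw [le_div_iff₀ hL0] at hj1
    rw [div_lt_iff₀ hL0] at hj2
    have hj3 : j ≤ ⌊H / L⌋₊ := by
      rw [hj]
      exact Nat.floor_le_floor (div_le_div_of_nonneg_right (by linarith) hL0.le)
    have hNabs : N.natAbs ≤ ⌊B⌋₊ := by
      apply Nat.le_floor
      have : ((N.natAbs : ℕ) : ℝ) = |(N : ℝ)| := by
        rw [Nat.cast_natAbs, Int.cast_abs]
      rw [this]
      exact hNB
    rw [Finset.mem_coe, Finset.mem_biUnion]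
    refine ⟨(j, i, N), ?_, ?_⟩
    · rw [hJ, Finset.mem_product, Finset.mem_product, Finset.mem_filter, Finset.mem_filter,
        Finset.mem_range, Finset.mem_range, Finset.mem_Icc]
      exact ⟨by simp only; omega, ⟨Nat.lt_succ_of_le (Nat.le_floor hi6), hi5⟩,
        ⟨by simp only; omega, by simp only; omega⟩, hN⟩
    · rw [Set.Finite.mem_toFinset, hS]
      refine ⟨by linarith, by linarith, by linarith, by linarith, x, n, hx0, hcop, heq, ?_, ?_⟩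
      · exact_mod_cast hi3
      · exact_mod_cast hi4
  have h1 := Set.ncard_le_ncard hcov (Finset.finite_toSet _)
  rw [Set.ncard_coe_finset] at h1
  have h2 : (J.biUnion fun p => (hSf p.1 p.2.1 p.2.2).toFinset).card ≤ J.card * ⌊W⌋₊ := by
    refine Finset.card_biUnion_le_card_mul _ _ _ fun p hp => ?_
    rw [hJ, Finset.mem_product, Finset.mem_product, Finset.mem_filter, Finset.mem_filter,
      Finset.mem_Icc] at hp
    refine Nat.le_floor (hSb p.1 p.2.1 p.2.2 hp.2.1.2 hp.2.2.2 ?_)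
    have e1 : p.2.2.natAbs ≤ ⌊B⌋₊ := by
      have e2 := hp.2.2.1.1
      have e3 := hp.2.2.1.2
      omega
    have e4 : ((p.2.2.natAbs : ℕ) : ℝ) = |(p.2.2 : ℝ)| := by
      rw [Nat.cast_natAbs, Int.cast_abs]
    rw [← e4]
    exact (Nat.cast_le.2 e1).trans (Nat.floor_le hB0)
  have h3 : (J.card : ℝ) ≤ (H / L + 1) * (2 * σ * Real.log D + 1) * (2 * B + 1) := by
    have e1 : J.card ≤ (⌊H / L⌋₊ + 1) * ((⌊2 * σ * Real.log D⌋₊ + 1) * (2 * ⌊B⌋₊ + 1)) := by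
      rw [hJ, Finset.card_product, Finset.card_range, Finset.card_product]
      refine Nat.mul_le_mul_left _ (Nat.mul_le_mul ?_ ?_)
      · refine (Finset.card_filter_le _ _).trans ?_
        rw [Finset.card_range]
      · refine (Finset.card_filter_le _ _).trans ?_
        rw [Int.card_Icc]
        omega
    have e2 : (J.card : ℝ) ≤ ((⌊H / L⌋₊ : ℝ) + 1) * (((⌊2 * σ * Real.log D⌋₊ : ℝ) + 1) *
        (2 * (⌊B⌋₊ : ℝ) + 1)) := by
      exact_mod_cast e1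
    refine e2.trans ?_
    have e3 : (⌊H / L⌋₊ : ℝ) ≤ H / L := Nat.floor_le (by positivity)
    have e4 : (⌊2 * σ * Real.log D⌋₊ : ℝ) ≤ 2 * σ * Real.log D := Nat.floor_le (by positivity)
    have e5 : (⌊B⌋₊ : ℝ) ≤ B := Nat.floor_le hB0
    have e6 : (H / L + 1) * (2 * σ * Real.log D + 1) * (2 * B + 1) =
        (H / L + 1) * ((2 * σ * Real.log D + 1) * (2 * B + 1)) := by ring
    rw [e6]
    exact mul_le_mul (by linarith) (mul_le_mul (by linarith) (by linarith) (by positivity)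
      (by positivity)) (by positivity) (by positivity)
  have h4 : ((J.biUnion fun p => (hSf p.1 p.2.1 p.2.2).toFinset).card : ℝ) ≤
      (J.card : ℝ) * (⌊W⌋₊ : ℝ) := by
    exact_mod_cast h2
  have h5 : (⌊W⌋₊ : ℝ) ≤ W := Nat.floor_le hW0
  calc _ ≤ ((J.biUnion fun p => (hSf p.1 p.2.1 p.2.2).toFinset).card : ℝ) := by exact_mod_cast h1
    _ ≤ (J.card : ℝ) * (⌊W⌋₊ : ℝ) := h4
    _ ≤ (H / L + 1) * (2 * σ * Real.log D + 1) * (2 * B + 1) * W :=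
        mul_le_mul h3 h5 (Nat.cast_nonneg _) (by positivity)

end Pool.Agent.U916.GN
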