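import Mathlib

/-!
# Descent: from a square norm to a non-square norm for prime radicands
-/

set_option autoImplicit false

namespace Pool.Agent.U916.GN

/-- If `t ^ 2 - p u ^ 2` is a nonzero square `S ^ 2` (`p` prime, `u ≥ 1`) then a non-square `N` with
`|N| ≤ max (S ^ 2) 2` is of the form `T ^ 2 - p U ^ 2` with `1 ≤ U ≤ u`. -/
theorem desc {p : ℕ} (hp : p.Prime) : ∀ (u : ℕ) (t S : ℤ), 1 ≤ u → 0 < t → 0 < S →
    t ^ 2 - p * (u : ℤ) ^ 2 = S ^ 2 →
    ∃ N T U : ℤ, ¬ IsSquare N ∧ |N| ≤ max (S ^ 2) 2 ∧ T ^ 2 - p * U ^ 2 = N ∧ 1 ≤ U ∧ U ≤ u := by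
  intro u
  induction u using Nat.strong_induction_on with
  | _ u ih =>
    intro t S hu ht hS heq
    have hp0 : (0 : ℤ) < p := by exact_mod_cast hp.pos
    have hp2 : (2 : ℤ) ≤ p := by exact_mod_cast hp.two_le
    have hpI : Prime (p : ℤ) := Nat.prime_iff_prime_int.1 hp
    have hu0 : (0 : ℤ) < u := by exact_mod_cast hu
    have hab : (t + S) * (t - S) = p * (u : ℤ) ^ 2 := by linear_combination heq
    have hpu : 0 < (p : ℤ) * (u : ℤ) ^ 2 := by positivity
    have ha : 0 < t + S := by linarith
    have hb : 0 < t - S := by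
      by_contra hc
      have : t - S ≤ 0 := by linarith
      nlinarith
    obtain ⟨g, hg⟩ : ∃ g : ℤ, g = Int.gcd (t + S) (t - S) := ⟨_, rfl⟩
    have hg0 : 0 < g := by
      rw [hg]
      exact_mod_cast Int.gcd_pos_of_ne_zero_left _ ha.ne'
    obtain ⟨a, haE⟩ : g ∣ t + S := by rw [hg]; exact Int.gcd_dvd_left _ _
    obtain ⟨b, hbE⟩ : g ∣ t - S := by rw [hg]; exact Int.gcd_dvd_right _ _
    have hcop : IsCoprime a b := by
      have h1 := Int.gcd_eq_gcd_ab (t + S) (t - S)
      rw [← hg, haE, hbE] at h1
      have h2 : g * 1 = g * (a * Int.gcdA (g * a) (g * b) + b * Int.gcdB (g * a) (g * b)) := by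
        linear_combination h1
      have h3 := mul_left_cancel₀ hg0.ne' h2
      exact ⟨Int.gcdA (g * a) (g * b), Int.gcdB (g * a) (g * b), by linear_combination -h3⟩
    have ha0 : 0 < a := by
      by_contra hc
      have : a ≤ 0 := by linarith
      nlinarith
    have hb0 : 0 < b := by
      by_contra hc
      have : b ≤ 0 := by linarith
      nlinarith
    -- `g ∣ u`
    have hgu : g ∣ (u : ℤ) := by
      obtain ⟨k, hk⟩ : ∃ k : ℤ, k = Int.gcd g u := ⟨_, rfl⟩
      have hk0 : 0 < k := by
        rw [hk]
        exact_mod_cast Int.gcd_pos_of_ne_zero_left _ hg0.ne'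
      obtain ⟨g', hg'⟩ : k ∣ g := by rw [hk]; exact Int.gcd_dvd_left _ _
      obtain ⟨u', hu'⟩ : k ∣ (u : ℤ) := by rw [hk]; exact Int.gcd_dvd_right _ _
      have hc' : IsCoprime g' u' := by
        have h1 := Int.gcd_eq_gcd_ab g u
        rw [← hk] at h1
        have h2 : k * 1 = k * (g' * Int.gcdA g u + u' * Int.gcdB g u) := by
          calc k * 1 = g * Int.gcdA g u + u * Int.gcdB g u := by rw [mul_one]; exact h1
            _ = k * (g' * Int.gcdA g u + u' * Int.gcdB g u) := by
                linear_combination (Int.gcdA g u) * hg' + (Int.gcdB g u) * hu'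
        have h3 := mul_left_cancel₀ hk0.ne' h2
        exact ⟨Int.gcdA g u, Int.gcdB g u, by linear_combination -h3⟩
      have h4 : g' ^ 2 * (a * b) = p * u' ^ 2 := by
        have h5 : k ^ 2 * (g' ^ 2 * (a * b)) = k ^ 2 * (p * u' ^ 2) := by
          calc k ^ 2 * (g' ^ 2 * (a * b)) = (k * g') ^ 2 * (a * b) := by ring
            _ = g ^ 2 * (a * b) := by rw [← hg']
            _ = (g * a) * (g * b) := by ring
            _ = (t + S) * (t - S) := by rw [haE, hbE]
            _ = p * (u : ℤ) ^ 2 := hab
            _ = p * (k * u') ^ 2 := by rw [← hu']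
            _ = k ^ 2 * (p * u' ^ 2) := by ring
        exact mul_left_cancel₀ (by positivity) h5
      have h6 : g' ^ 2 ∣ (p : ℤ) := by
        have : g' ^ 2 ∣ p * u' ^ 2 := ⟨_, h4.symm⟩
        exact (IsCoprime.pow hc').dvd_of_dvd_mul_right this
      have h7 : IsUnit g' := by
        apply hpI.squarefree
        rw [← sq]
        exact h6
      rw [hg', hu']
      exact mul_dvd_mul_left k (h7.dvd)
    obtain ⟨v, hv⟩ := hgu
    have hv0 : 0 < v := by
      by_contra hc
      have : v ≤ 0 := by linarith
      nlinarith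
    have hvu : v ≤ u := by rw [hv]; nlinarith
    have hab' : a * b = p * v ^ 2 := by
      have h5 : g ^ 2 * (a * b) = g ^ 2 * (p * v ^ 2) := by
        calc g ^ 2 * (a * b) = (g * a) * (g * b) := by ring
          _ = (t + S) * (t - S) := by rw [haE, hbE]
          _ = p * (u : ℤ) ^ 2 := hab
          _ = p * (g * v) ^ 2 := by rw [← hv]
          _ = g ^ 2 * (p * v ^ 2) := by ring
      exact mul_left_cancel₀ (by positivity) h5
    have hM : g * (a - b) = 2 * S := by
      have : g * (a - b) = g * a - g * b := by ring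
      rw [this, ← haE, ← hbE]
      ring
    have hM0 : 0 < a - b := by
      by_contra hc
      have : a - b ≤ 0 := by linarith
      nlinarith
    have hM1 : a - b ≤ 2 * S := by nlinarith
    have hS2 : 2 * S ≤ max (S ^ 2) 2 := by
      rcases le_or_gt 2 S with h | h
      · exact le_max_of_le_left (by nlinarith)
      · exact le_max_of_le_right (by linarith)
    have sqr : ∀ c d : ℤ, 0 < c → 0 < d → IsCoprime c d → c * d = v ^ 2 →
        ∃ r w : ℤ, 0 < r ∧ 0 < w ∧ c = r ^ 2 ∧ d = w ^ 2 := by
      intro c d hc hd hcd h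
      obtain ⟨r, hr⟩ := Int.sq_of_isCoprime hcd h
      obtain ⟨w, hw⟩ := Int.sq_of_isCoprime hcd.symm (show d * c = v ^ 2 by rw [mul_comm]; exact h)
      have hr' : c = r ^ 2 := by
        rcases hr with hr | hr
        · exact hr
        · nlinarith [sq_nonneg r]
      have hw' : d = w ^ 2 := by
        rcases hw with hw | hw
        · exact hw
        · nlinarith [sq_nonneg w]
      refine ⟨|r|, |w|, ?_, ?_, by rw [sq_abs]; exact hr', by rw [sq_abs]; exact hw'⟩
      · apply abs_pos.2
        rintro rfl
        simp at hr'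
        omega
      · apply abs_pos.2
        rintro rfl
        simp at hw'
        omega
    have hpab : (p : ℤ) ∣ a * b := ⟨_, hab'⟩
    rcases hpI.dvd_or_dvd hpab with ⟨c, hc⟩ | ⟨c, hc⟩
    · -- `a = p c`
      have hc0 : 0 < c := by
        by_contra h
        have : c ≤ 0 := by linarith
        nlinarith
      have hcb : c * b = v ^ 2 := by
        have : (p : ℤ) * (c * b) = p * v ^ 2 := by rw [← hab', hc]; ring
        exact mul_left_cancel₀ hp0.ne' this
      have hcop' : IsCoprime c b := by
        rw [hc] at hcop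
        exact hcop.of_mul_left_right
      obtain ⟨r, w, hr, hw, hcr, hbw⟩ := sqr c b hc0 hb0 hcop' hcb
      refine ⟨-(a - b), w, r, ?_, ?_, ?_, by omega, ?_⟩
      · rintro ⟨z, hz⟩
        nlinarith [mul_self_nonneg z]
      · rw [abs_neg, abs_of_pos hM0]
        exact hM1.trans hS2
      · rw [hc, hcr, hbw]
        ring
      · have : r ^ 2 * w ^ 2 = v ^ 2 := by rw [← hcr, ← hbw]; exact hcb
        have h1 : (r * w) ^ 2 = v ^ 2 := by rw [← this]; ring
        have h2 : r * w = v := by
          have := (sq_eq_sq₀ (by positivity) hv0.le).1 h1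
          exact this
        nlinarith
    · -- `b = p c`
      have hc0 : 0 < c := by
        by_contra h
        have : c ≤ 0 := by linarith
        nlinarith
      have hac : a * c = v ^ 2 := by
        have : (p : ℤ) * (a * c) = p * v ^ 2 := by rw [← hab', hc]; ring
        exact mul_left_cancel₀ hp0.ne' this
      have hcop' : IsCoprime a c := by
        rw [hc] at hcop
        exact hcop.of_mul_right_right
      obtain ⟨r, w, hr, hw, har, hcw⟩ := sqr a c ha0 hc0 hcop' hac
      have h1 : (r * w) ^ 2 = v ^ 2 := by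
        rw [← hac, har, hcw]; ring
      have h2 : r * w = v := (sq_eq_sq₀ (by positivity) hv0.le).1 h1
      have hMeq : r ^ 2 - p * w ^ 2 = a - b := by rw [hc, har, hcw]
      by_cases hsq : IsSquare (a - b)
      · obtain ⟨S1, hS1⟩ := hsq
        have hr2 : 2 ≤ r := by
          by_contra h
          have : r = 1 := by omega
          subst this
          nlinarith
        have hwu : w < u := by nlinarith
        obtain ⟨n, rfl⟩ : ∃ n : ℕ, w = n := ⟨w.toNat, by omega⟩
        have hS10 : 0 < |S1| := by
          apply abs_pos.2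
          rintro rfl
          simp at hS1
          omega
        obtain ⟨N, T, U, h3, h4, h5, h6, h7⟩ := ih n (by exact_mod_cast hwu) r |S1|
          (by exact_mod_cast hw) hr hS10 (by rw [hMeq, hS1, sq_abs]; ring)
        refine ⟨N, T, U, h3, h4.trans ?_, h5, h6, h7.trans hwu.le⟩
        apply max_le _ (le_max_right _ _)
        rw [sq_abs]
        calc S1 ^ 2 = a - b := by rw [hS1]; ring
          _ ≤ 2 * S := hM1
          _ ≤ _ := hS2
      · refine ⟨a - b, r, w, hsq, ?_, hMeq, by omega, ?_⟩
        · rw [abs_of_pos hM0]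
          exact hM1.trans hS2
        · nlinarith

end Pool.Agent.U916.GN
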