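import Pool.Agent.U916.GN.Num
import Pool.Agent.U916.GN.Desc
import Pool.Agent.H38R2.CG.N0
import Pool.Agent.H38R2.CG.N0d

/-!
# From algebraic integers with small conjugates to solutions of `x ^ 2 - d y ^ 2 = N`
-/

set_option autoImplicit false

namespace Pool.Agent.U916.GN

open NumberField Pool.Agent.H38R2.CG

/-- coordinates -/
theorem coord {K : Type} [Field K] [NumberField K] {d : ℕ} (hd : 1 < d) (hsf : Squarefree d)
    (h2 : Module.finrank ℚ K = 2) (hx : ∃ x : K, x ^ 2 = (d : K)) {S : ℝ}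
    (β : 𝓞 K) (hβ : ∀ n : ℤ, β ≠ n) (hb : ∀ φ : K →+* ℂ, ‖φ β‖ ≤ S) :
    ∃ t u : ℤ, t ^ 2 - d * u ^ 2 = 4 * Algebra.norm ℤ β ∧ 1 ≤ u ∧ (u : ℝ) * √d ≤ 2 * S := by
  have hdisc := T_N0d K d hd hsf h2 hx
  obtain ⟨D, hD⟩ : ∃ D : ℕ, D = if d % 4 = 1 then d else 4 * d := ⟨_, rfl⟩
  have hDfund : IsFund D := by
    refine ⟨?_, ?_⟩
    · rw [hD]; split_ifs <;> omega
    · by_cases h1 : d % 4 = 1
      · left
        rw [hD, if_pos h1]
        exact ⟨h1, hsf⟩
      · right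
        refine ⟨d, by rw [hD, if_neg h1], ?_, hsf⟩
        have h4 : ¬ (2 * 2 ∣ d) := fun h => by
          have := hsf 2 h
          simp at this
        omega
  have hDd : NumberField.discr K = (D : ℤ) := by
    rw [hdisc, hD]
    split_ifs <;> push_cast <;> rfl
  obtain ⟨e⟩ := T_N0 K D hDfund h2 hDd
  obtain ⟨t, v, -, h3, h4⟩ := e.int1 β
  have hD0 : (0 : ℝ) < D := by
    have := hDfund.1
    exact_mod_cast (by omega : 0 < D)
  have hs : √(D : ℝ) * √(D : ℝ) = D := Real.mul_self_sqrt hD0.le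
  have hs0 : 0 < √(D : ℝ) := Real.sqrt_pos.2 hD0
  have hn : t ^ 2 - D * v ^ 2 = 4 * Algebra.norm ℤ β := by
    have e1 := e.nrm (β : K)
    rw [h3, h4] at e1
    have e2 : Algebra.norm ℚ (β : K) = ((Algebra.norm ℤ β : ℤ) : ℚ) :=
      (Algebra.coe_norm_int β).symm
    rw [e2] at e1
    have e3 : (((t ^ 2 - D * v ^ 2 : ℤ)) : ℝ) = ((4 * Algebra.norm ℤ β : ℤ) : ℝ) := by
      push_cast at e1 ⊢
      have : ((t : ℝ) + v * √(D : ℝ)) / 2 * (((t : ℝ) - v * √(D : ℝ)) / 2) =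
          (t ^ 2 - (√(D : ℝ) * √(D : ℝ)) * v ^ 2) / 4 := by ring
      rw [this, hs] at e1
      linarith
    exact_mod_cast e3
  have hv : v ≠ 0 := by
    rintro rfl
    have e1 : t ^ 2 = 4 * Algebra.norm ℤ β := by
      rw [← hn]; ring
    have e2 : (2 : ℤ) ∣ t := by
      have : (2 : ℤ) ∣ t ^ 2 := ⟨2 * Algebra.norm ℤ β, by rw [e1]; ring⟩
      exact Int.prime_two.dvd_of_dvd_pow this
    obtain ⟨n, rfl⟩ := e2
    apply hβ n
    apply RingOfIntegers.ext
    apply e.σ.injective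
    rw [h3]
    push_cast
    simp
  have hup : |(v : ℝ)| * √(D : ℝ) ≤ 2 * S := by
    have b1 := hb (Complex.ofRealHom.comp e.σ)
    have b2 := hb (Complex.ofRealHom.comp e.τ)
    rw [RingHom.comp_apply, Complex.ofRealHom_eq_coe, Complex.norm_real, Real.norm_eq_abs, h3] at b1
    rw [RingHom.comp_apply, Complex.ofRealHom_eq_coe, Complex.norm_real, Real.norm_eq_abs, h4] at b2
    have b3 : |(v : ℝ)| * √(D : ℝ) = |(((t : ℝ) + v * √(D : ℝ)) / 2) - ((t : ℝ) - v * √(D : ℝ)) / 2| := by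
      rw [show (((t : ℝ) + v * √(D : ℝ)) / 2) - ((t : ℝ) - v * √(D : ℝ)) / 2 = v * √(D : ℝ) by ring,
        abs_mul, abs_of_pos hs0]
    rw [b3]
    refine (abs_sub _ _).trans ?_
    linarith
  have hva : 1 ≤ |v| := Int.one_le_abs hv
  by_cases h1 : d % 4 = 1
  · rw [if_pos h1] at hD
    subst hD
    refine ⟨t, |v|, by rw [sq_abs]; exact hn, hva, ?_⟩
    push_cast
    exact hup
  · rw [if_neg h1] at hD
    refine ⟨t, 2 * |v|, ?_, by omega, ?_⟩
    · rw [← hn, hD]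
      push_cast
      rw [mul_pow, sq_abs]
      ring
    · have e1 : √(D : ℝ) = 2 * √(d : ℝ) := by
        rw [hD]
        push_cast
        rw [show (4 : ℝ) * d = (2 : ℝ) ^ 2 * d by norm_num, Real.sqrt_mul (by norm_num),
          Real.sqrt_sq (by norm_num)]
      rw [e1] at hup
      push_cast
      linarith

/-- a number of non-square norm -/
theorem exc_nsq {K : Type} [Field K] [NumberField K] {d : ℕ} (hd : 4 ≤ d) (hsf : Squarefree d)
    (h2 : Module.finrank ℚ K = 2) (hx : ∃ x : K, x ^ 2 = (d : K)) {S B : ℝ} (hS : 0 ≤ S)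
    (β : 𝓞 K) (hβ : ∀ n : ℤ, β ≠ n) (hb : ∀ φ : K →+* ℂ, ‖φ β‖ ≤ S)
    (hn : ¬ IsSquare (Algebra.norm ℤ β)) (hB : |((Algebra.norm ℤ β : ℤ) : ℝ)| ≤ B) :
    Exc d (4 * B) S := by
  obtain ⟨t, u, h1, h3, h4⟩ := coord (by omega) hsf h2 hx β hβ hb
  refine ⟨4 * Algebra.norm ℤ β, t, u, ?_, ?_, h1, h3, ?_⟩
  · rintro ⟨r, hr⟩
    have e2 : (2 : ℤ) ∣ r := by
      have : (2 : ℤ) ∣ r * r := ⟨2 * Algebra.norm ℤ β, by rw [← hr]; ring⟩
      rcases Int.prime_two.dvd_or_dvd this with h | h <;> exact h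
    obtain ⟨k, rfl⟩ := e2
    apply hn
    exact ⟨k, by linarith⟩
  · push_cast
    rw [abs_mul, abs_of_pos (by norm_num : (0 : ℝ) < 4)]
    linarith
  · have hs : 2 ≤ √(d : ℝ) := by
      rw [Real.le_sqrt (by norm_num) (by positivity)]
      norm_num
      exact_mod_cast hd
    have hu0 : (0 : ℝ) ≤ u := by exact_mod_cast (by omega : (0 : ℤ) ≤ u)
    nlinarith

/-- prime radicands: all norms -/
theorem exc_prime {K : Type} [Field K] [NumberField K] {p : ℕ} (hp4 : 4 ≤ p) (hp : p.Prime)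
    (h2 : Module.finrank ℚ K = 2) (hx : ∃ x : K, x ^ 2 = (p : K)) {S B : ℝ} (hS : 0 ≤ S)
    (β : 𝓞 K) (hβ : ∀ n : ℤ, β ≠ n) (hb : ∀ φ : K →+* ℂ, ‖φ β‖ ≤ S)
    (hB : |((Algebra.norm ℤ β : ℤ) : ℝ)| ≤ B) :
    Exc p (4 * B) S := by
  by_cases hn : IsSquare (Algebra.norm ℤ β)
  · obtain ⟨t, u, h1, h3, h4⟩ := coord (by omega) hp.prime.squarefree h2 hx β hβ hb
    obtain ⟨k, hk⟩ := hn
    obtain ⟨v, rfl⟩ : ∃ v : ℕ, u = v := ⟨u.toNat, by omega⟩
    have hs : 2 ≤ √(p : ℝ) := by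
      rw [Real.le_sqrt (by norm_num) (by positivity)]
      norm_num
      exact_mod_cast hp4
    have hv0 : (0 : ℝ) ≤ v := Nat.cast_nonneg v
    have hvS : (v : ℝ) ≤ S := by
      have h4' : (v : ℝ) * √(p : ℝ) ≤ 2 * S := by exact_mod_cast h4
      nlinarith
    have hk0 : k ≠ 0 := by
      rintro rfl
      rw [hk] at h1
      -- `t ^ 2 = p v ^ 2`
      have h5 : t.natAbs ^ 2 = p * v ^ 2 := by
        have : ((t.natAbs ^ 2 : ℕ) : ℤ) = ((p * v ^ 2 : ℕ) : ℤ) := by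
          push_cast
          rw [sq_abs]
          linarith
        exact_mod_cast this
      have hv1 : v ≠ 0 := by
        rintro rfl
        simp at h3
      have h6 : Squarefree p := hp.prime.squarefree
      have h7 : v ∣ t.natAbs := by
        have : v ^ 2 ∣ t.natAbs ^ 2 := ⟨p, by rw [h5]; ring⟩
        exact (Nat.pow_dvd_pow_iff (by norm_num)).1 this
      obtain ⟨w, hw⟩ := h7
      rw [hw, mul_pow] at h5
      have h8 : w ^ 2 = p := by
        have : v ^ 2 * w ^ 2 = v ^ 2 * p := by rw [h5]; ring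
        exact Nat.eq_of_mul_eq_mul_left (by positivity) this
      rw [← h8] at hp
      exact Nat.Prime.not_prime_pow (le_refl 2) hp
    have ht0 : 0 < |t| := by
      apply abs_pos.2
      rintro rfl
      have : (0 : ℤ) < (2 * k) ^ 2 := by positivity
      have h5 : (0 : ℤ) ≤ (p : ℤ) * (v : ℤ) ^ 2 := by positivity
      nlinarith
    obtain ⟨N, T, U, g1, g2, g3, g4, g5⟩ := desc hp v |t| |2 * k| (by exact_mod_cast h3) ht0
      (abs_pos.2 (by omega)) (by rw [sq_abs, sq_abs, h1, hk]; ring)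
    refine ⟨N, T, U, g1, ?_, g3, g4, ?_⟩
    · have e1 : |(N : ℝ)| ≤ max (((2 * k) ^ 2 : ℤ) : ℝ) 2 := by
        rw [sq_abs] at g2
        have : ((|N| : ℤ) : ℝ) ≤ ((max ((2 * k) ^ 2) 2 : ℤ) : ℝ) := by exact_mod_cast g2
        push_cast at this ⊢
        exact this
      refine e1.trans ?_
      have e2 : (((2 * k) ^ 2 : ℤ) : ℝ) = 4 * |((Algebra.norm ℤ β : ℤ) : ℝ)| := by
        rw [hk]
        push_cast
        rw [abs_of_nonneg (mul_self_nonneg _)]
        ring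
      have e3 : (1 : ℝ) ≤ |((Algebra.norm ℤ β : ℤ) : ℝ)| := by
        rw [hk]
        have : (1 : ℤ) ≤ |k * k| := Int.one_le_abs (mul_self_ne_zero.2 hk0)
        exact_mod_cast this
      apply max_le
      · rw [e2]; linarith
      · linarith
    · refine le_trans ?_ hvS
      exact_mod_cast g5
  · exact exc_nsq hp4 hp.prime.squarefree h2 hx hS β hβ hb hn hB

end Pool.Agent.U916.GN
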