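import Pool.Agent.U916.GN.Blk

/-!
# The number of exceptional radicands in an interval: explicit exponents
-/

set_option autoImplicit false

namespace Pool.Agent.U916.GN

open Real

/-- at most `H / x ^ (1 / (1000 A ^ 2))` integers `d` in `(x, x + H]` are exceptional -/
theorem num : ∃ x₀ : ℝ, ∀ x A H : ℝ, x₀ ≤ x → 1 ≤ A → A ^ 2 * log (log x) ≤ log x / 10 ^ 4 →
    x ^ (1 / (60 * A ^ 2)) ≤ H → H ≤ x →
    ({d : ℤ | x < d ∧ (d : ℝ) ≤ x + H ∧ Exc d (4 * x ^ (1 / (1000 * A ^ 2))) (x ^ A)}.ncard : ℝ) ≤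
      H / x ^ (1 / (1000 * A ^ 2)) := by
  obtain ⟨C, hC1, hC⟩ := count
  obtain ⟨K, hK⟩ : ∃ K : ℝ, K = 54 * C * 19 ^ 6 := ⟨_, rfl⟩
  have hK0 : 0 < K := by rw [hK]; positivity
  refine ⟨exp (exp (K + 100)) + C, ?_⟩
  intro x A H hx hA hAl hH1 hH2
  have hx1 : exp (exp (K + 100)) ≤ x := by linarith
  have hxC : C ≤ x := by linarith [exp_pos (exp (K + 100))]
  have hx0 : 0 < x := (exp_pos _).trans_le hx1
  obtain ⟨l, hl⟩ : ∃ l : ℝ, l = log x := ⟨_, rfl⟩
  have hxl : x = exp l := by rw [hl, exp_log hx0]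
  have hl1 : exp (K + 100) ≤ l := by
    rw [hl, le_log_iff_exp_le hx0]
    exact hx1
  have hl0 : 0 < l := (exp_pos _).trans_le hl1
  have hll : K + 100 ≤ log l := by
    rw [le_log_iff_exp_le hl0]
    exact hl1
  have hl2 : K + 101 ≤ l := by
    have := add_one_le_exp (K + 100)
    linarith
  rw [← hl] at hAl
  have hA0 : 0 < A := by linarith
  have hA2 : 1 ≤ A ^ 2 := by nlinarith
  have hA2l : A ^ 2 * (10 ^ 4 * log l) ≤ l := by linarith
  have hA2l' : A ^ 2 ≤ l := by nlinarith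
  -- the parameter `m`
  obtain ⟨m, hm⟩ : ∃ m : ℕ, m = ⌈2 * (2 * A + 1) ^ 2⌉₊ := ⟨_, rfl⟩
  have hm1 : 2 * (2 * A + 1) ^ 2 ≤ m := by rw [hm]; exact Nat.le_ceil _
  have hm2 : (m : ℝ) ≤ 19 * A ^ 2 := by
    have : (m : ℝ) < 2 * (2 * A + 1) ^ 2 + 1 := by
      rw [hm]
      exact Nat.ceil_lt_add_one (by positivity)
    nlinarith
  have hm3 : 8 * A ^ 2 ≤ m := by nlinarith
  have hm0 : (0 : ℝ) < m := by nlinarith
  have hm4 : 1 ≤ m := by
    have : 0 < m := by exact_mod_cast hm0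
    omega
  have hCm : C * m ≤ log x := by
    rw [← hl]
    have e1 : C * m ≤ C * (19 * A ^ 2) := mul_le_mul_of_nonneg_left hm2 (by linarith)
    have e2 : C * 19 ≤ 10 ^ 4 * log l := by
      have : C * 19 ≤ K := by rw [hK]; nlinarith
      nlinarith
    nlinarith [mul_le_mul_of_nonneg_left e2 (show (0 : ℝ) ≤ A ^ 2 by positivity)]
  obtain ⟨E, hE⟩ : ∃ E : ℝ, E = exp (l / (1000 * A ^ 2)) := ⟨_, rfl⟩
  have hEx : x ^ (1 / (1000 * A ^ 2)) = E := by
    rw [hxl, ← exp_mul, hE]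
    congr 1
    ring
  obtain ⟨W, hW⟩ : ∃ W : ℝ, W = exp (l / (16 * m)) := ⟨_, rfl⟩
  have hWx : x ^ (1 / (16 * (m : ℝ))) = W := by
    rw [hxl, ← exp_mul, hW]
    congr 1
    ring
  have hLx : x ^ (1 / (8 * (m : ℝ))) = W ^ 2 := by
    rw [hxl, ← exp_mul, hW, ← exp_nat_mul]
    congr 1
    push_cast
    field_simp
    norm_num
  have hE1 : 1 ≤ E := by rw [hE]; exact one_le_exp (by positivity)
  have hW1 : 1 ≤ W := by rw [hW]; exact one_le_exp (by positivity)
  have hW2H : W ^ 2 ≤ H := by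
    refine le_trans ?_ hH1
    rw [← hLx]
    refine rpow_le_rpow_of_exponent_le ?_ ?_
    · rw [hxl]
      exact one_le_exp hl0.le
    · apply one_div_le_one_div_of_le (by positivity)
      nlinarith
  have hH0 : 0 ≤ H := by nlinarith
  have hB : 4 * E ≤ x ^ ((1 : ℝ) / 8) := by
    rw [hxl, ← exp_mul, hE]
    have e1 : (4 : ℝ) ≤ exp (l / 16) := by
      have := add_one_le_exp (l / 16)
      linarith
    have e2 : exp (l / (1000 * A ^ 2)) ≤ exp (l / 16) := by
      apply exp_le_exp.2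
      apply div_le_div_of_nonneg_left hl0.le (by norm_num)
      nlinarith
    have e3 : exp (l * (1 / 8)) = exp (l / 16) * exp (l / 16) := by
      rw [← exp_add]
      congr 1
      ring
    rw [e3]
    exact mul_le_mul e1 e2 (exp_pos _).le (exp_pos _).le
  have main := hC x A (4 * E) H m hxC hm4 hA0.le hm1 hCm (by positivity) hB hH0 hH2
  rw [hEx]
  refine main.trans ?_
  rw [hLx, hWx, ← hl]
  have f1 : H / W ^ 2 + 1 ≤ 2 * (H / W ^ 2) := by
    have : 1 ≤ H / W ^ 2 := by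
      rw [le_div_iff₀ (by positivity)]
      linarith
    linarith
  have f2 : 2 * A * l + 1 ≤ 3 * (A * l) := by nlinarith
  have f3 : 2 * (4 * E) + 1 ≤ 9 * E := by linarith
  have f4 : ((m : ℝ) ^ 2 * l) ^ 3 ≤ 19 ^ 6 * (A ^ 12 * l ^ 3) := by
    have e1 : (m : ℝ) ^ 2 * l ≤ (19 * A ^ 2) ^ 2 * l := by gcongr
    have e2 : ((m : ℝ) ^ 2 * l) ^ 3 ≤ ((19 * A ^ 2) ^ 2 * l) ^ 3 := by gcongr
    refine e2.trans (le_of_eq ?_)
    ring
  have f5 : C * W * ((m : ℝ) ^ 2 * l) ^ 3 ≤ C * W * (19 ^ 6 * (A ^ 12 * l ^ 3)) := by gcongr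
  have g1 : (H / W ^ 2 + 1) * (2 * A * l + 1) * (2 * (4 * E) + 1) * (C * W * ((m : ℝ) ^ 2 * l) ^ 3) ≤
      (2 * (H / W ^ 2)) * (3 * (A * l)) * (9 * E) * (C * W * (19 ^ 6 * (A ^ 12 * l ^ 3))) := by
    gcongr
  refine g1.trans ?_
  have g2 : (2 * (H / W ^ 2)) * (3 * (A * l)) * (9 * E) * (C * W * (19 ^ 6 * (A ^ 12 * l ^ 3))) =
      H / W * (K * (A ^ 13 * l ^ 4) * E) := by
    rw [hK]
    field_simp
    ring
  rw [g2]
  have g3 : K * (A ^ 13 * l ^ 4) * E * E ≤ W := by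
    have e1 : A ^ 13 * l ^ 4 ≤ l ^ 11 := by
      have e2 : A ^ 13 ≤ A ^ 14 := pow_le_pow_right₀ hA (by norm_num)
      have e3 : A ^ 14 ≤ l ^ 7 := by
        have : A ^ 14 = (A ^ 2) ^ 7 := by ring
        rw [this]
        gcongr
      calc A ^ 13 * l ^ 4 ≤ l ^ 7 * l ^ 4 := by gcongr; exact e2.trans e3
        _ = l ^ 11 := by ring
    have e4 : K * (A ^ 13 * l ^ 4) ≤ l ^ 12 := by
      calc K * (A ^ 13 * l ^ 4) ≤ l * l ^ 11 := by
            apply mul_le_mul (by linarith) e1 (by positivity) hl0.le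
        _ = l ^ 12 := by ring
    have e5 : l ^ 12 = exp (12 * log l) := by
      rw [mul_comm, exp_mul, exp_log hl0]
      norm_cast
    have e6 : E * E = exp (l / A ^ 2 * (1 / 500)) := by
      rw [hE, ← exp_add]
      congr 1
      field_simp
      norm_num
    have e7 : exp (l / A ^ 2 * (1 / 304)) ≤ W := by
      rw [hW]
      apply exp_le_exp.2
      rw [div_mul_div_comm, mul_one]
      apply div_le_div_of_nonneg_left hl0.le (by positivity)
      nlinarith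
    have e8 : 10 ^ 4 * log l ≤ l / A ^ 2 := by
      rw [le_div_iff₀ (by positivity)]
      linarith
    calc K * (A ^ 13 * l ^ 4) * E * E = K * (A ^ 13 * l ^ 4) * (E * E) := by ring
      _ ≤ l ^ 12 * (E * E) := by gcongr
      _ = exp (12 * log l + l / A ^ 2 * (1 / 500)) := by rw [e5, e6, ← exp_add]
      _ ≤ exp (l / A ^ 2 * (1 / 304)) := by
          apply exp_le_exp.2
          have : 0 ≤ log l := by linarith
          nlinarith
      _ ≤ W := e7
  calc H / W * (K * (A ^ 13 * l ^ 4) * E) = H / E * (K * (A ^ 13 * l ^ 4) * E * E / W) := by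
        field_simp
    _ ≤ H / E * 1 := by
        apply mul_le_mul_of_nonneg_left _ (by positivity)
        rw [div_le_one (by positivity)]
        exact g3
    _ = H / E := mul_one _

end Pool.Agent.U916.GN
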