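import Pool.Agent.Q276.PL.All

/-!
# Elements of small non-square norm: an interval of radicands and a dyadic range

The determinant method of the library (`Pool.Agent.W223.PL`, `Pool.Agent.Q276.PL`) for the equation
`x ^ 2 - d y ^ 2 = N` with a fixed non-square `N`.
-/

set_option autoImplicit false

namespace Pool.Agent.U916.GN

open Polynomial Pool.Agent.W223.HZ Pool.Agent.W223.PL Pool.Agent.Q276.PL Pool.Agent.Q121.PL

/-- There is a coprime solution of `x ^ 2 - d y ^ 2 = N` with `V ≤ y < 2 V`. -/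
def Sol (d N : ℤ) (V : ℝ) : Prop := ∃ x y : ℤ, 0 ≤ x ∧ IsCoprime x y ∧ x ^ 2 - d * y ^ 2 = N ∧
  V ≤ y ∧ (y : ℝ) < 2 * V

theorem pin : ∃ C₈ : ℝ, 1 ≤ C₈ ∧ ∀ (D V σ : ℝ) (m : ℕ) (N : ℤ) (𝒟 : Finset ℤ), C₈ ≤ D →
    1 ≤ m → 0 ≤ σ → 2 * (2 * σ + 1) ^ 2 ≤ m → C₈ * m ≤ Real.log D → 1 ≤ V → V ≤ D ^ σ →
    ¬ IsSquare N → |(N : ℝ)| ≤ D ^ ((1 : ℝ) / 8) →
    (∀ d ∈ 𝒟, D ≤ d ∧ (d : ℝ) ≤ 2 * D ∧ Sol d N V) →
    (∀ d ∈ 𝒟, ∀ d' ∈ 𝒟, |(d : ℝ) - d'| ≤ D ^ (1 / (8 * (m : ℝ)))) →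
    (𝒟.card : ℝ) ≤ C₈ * D ^ (1 / (16 * (m : ℝ))) * ((m : ℝ) ^ 2 * Real.log D) ^ 3 := by
  obtain ⟨C₇, hC7, hPV⟩ := pvg_true
  have hMIN : StmtMIN := Pool.Agent.Q182.PL.min
  have hCUQ : StmtCUQ := cuq_true
  refine ⟨C₇ + 10 ^ 12, by linarith, ?_⟩
  intro D V σ m N 𝒟 hD hm hσ0 hσm hCm hV1 hVD hNsq hNb h𝒟 h𝒟'
  have hm1 : (1 : ℝ) ≤ m := by exact_mod_cast hm
  have hD1 : 1 ≤ D := by linarith
  have hDpos : 0 < D := by linarith
  have hlm : (m : ℝ) ≤ Real.log D := by nlinarith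
  have hl1 : 1 ≤ Real.log D := hm1.trans hlm
  have hC7m : C₇ * m ≤ Real.log D := by nlinarith
  have hσle : σ ≤ m := by nlinarith
  obtain ⟨Λ, hΛ⟩ : ∃ Λ, Λ = 40 * (m : ℝ) ^ 2 * Real.log D := ⟨_, rfl⟩
  have hm2 : (1 : ℝ) ≤ (m : ℝ) ^ 2 := by nlinarith
  have hml : (m : ℝ) ≤ (m : ℝ) ^ 2 * Real.log D := by nlinarith
  have h40 : (40 : ℝ) * m ≤ Λ := by rw [hΛ]; linarith
  have hΛ1 : 1 ≤ Λ := by linarith
  obtain ⟨L, hL⟩ : ∃ L, L = D ^ (1 / (8 * (m : ℝ))) := ⟨_, rfl⟩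
  have hL1 : 1 ≤ L := by rw [hL]; exact Real.one_le_rpow hD1 (by positivity)
  have hlog : Real.log (120 * √L * Λ) ≤ 2 * Λ := by
    rw [hL, hΛ]
    exact log_bnd D m hm hD1 hlm
  have hsL : √L = D ^ (1 / (16 * (m : ℝ))) := by rw [hL]; exact sqrt_eq D m hm hD1
  have hsL1 : 1 ≤ √L := by rw [Real.one_le_sqrt]; exact hL1
  rw [← hL] at h𝒟'
  rw [← hsL]
  -- the reduction
  suffices hmain : (𝒟.card : ℝ) ≤ (m : ℝ) ^ 2 + 400000 * √L * Λ ^ 3 by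
    refine hmain.trans ?_
    obtain ⟨u, hu⟩ : ∃ u, u = (m : ℝ) ^ 2 * Real.log D := ⟨_, rfl⟩
    have hΛu : Λ = 40 * u := by rw [hΛ, hu]; ring
    rw [← hu, hΛu]
    have hu1 : 1 ≤ u := by rw [hu]; nlinarith
    have h2 : (m : ℝ) ^ 2 ≤ u := by rw [hu]; nlinarith
    have h3 : u ≤ u ^ 3 := by
      nlinarith [mul_le_mul hu1 hu1 zero_le_one (by linarith : (0:ℝ) ≤ u), sq_nonneg u]
    have hu3 : 0 ≤ u ^ 3 := by positivity
    have h4 : u ^ 3 ≤ √L * u ^ 3 := by nlinarith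
    have h5 : 400000 * √L * (40 * u) ^ 3 = 25600000000 * (√L * u ^ 3) := by ring
    rw [h5]
    have h6 : 0 ≤ √L * u ^ 3 := by positivity
    have h7 : (C₇ + 10 ^ 12) * √L * u ^ 3 = C₇ * (√L * u ^ 3) + 10 ^ 12 * (√L * u ^ 3) := by ring
    rw [h7]
    have h8 : 0 ≤ C₇ * (√L * u ^ 3) := by positivity
    linarith
  rcases 𝒟.eq_empty_or_nonempty with rfl | ⟨d₀, hd₀⟩
  · simp only [Finset.card_empty, Nat.cast_zero]
    positivity
  have h4 : ∀ d ∈ 𝒟, ∃ x y : ℤ, 0 ≤ x ∧ IsCoprime x y ∧ x ^ 2 - d * y ^ 2 = N ∧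
    V ≤ y ∧ (y : ℝ) < 2 * V := fun d hd => (h𝒟 d hd).2.2
  choose! x y hxy using h4
  obtain ⟨T, hT⟩ : ∃ T : Finset ℤ, T = 𝒟.image (fun d => d - d₀) := ⟨_, rfl⟩
  have hTm : ∀ τ ∈ T, d₀ + τ ∈ 𝒟 := by
    intro τ hτ
    rw [hT, Finset.mem_image] at hτ
    obtain ⟨d, hd, rfl⟩ := hτ
    rwa [add_sub_cancel]
  have hTc : T.card = 𝒟.card := by
    rw [hT]
    exact Finset.card_image_of_injective _ (fun a b h => by simpa using h)
  rw [← hTc]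
  have hX : ∀ τ ∈ T, 0 ≤ x (d₀ + τ) ∧ IsCoprime (x (d₀ + τ)) (y (d₀ + τ)) ∧
      x (d₀ + τ) ^ 2 - (d₀ + τ) * y (d₀ + τ) ^ 2 = N ∧ V ≤ y (d₀ + τ) ∧
      (y (d₀ + τ) : ℝ) < 2 * V := fun τ hτ => hxy _ (hTm τ hτ)
  have hy1 : ∀ τ ∈ T, 1 ≤ y (d₀ + τ) := by
    intro τ hτ
    have h1 := hV1.trans (hX τ hτ).2.2.2.1
    exact_mod_cast h1
  have hτL : ∀ τ ∈ T, |(τ : ℝ)| ≤ L := by
    intro τ hτ
    have h1 := h𝒟' _ (hTm τ hτ) _ hd₀
    push_cast at h1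
    rwa [add_sub_cancel_left] at h1
  have hd0R : D ≤ d₀ ∧ (d₀ : ℝ) ≤ 2 * D := ⟨(h𝒟 d₀ hd₀).1, (h𝒟 d₀ hd₀).2.1⟩
  have hdR : ∀ τ ∈ T, D ≤ ((d₀ + τ : ℤ) : ℝ) ∧ ((d₀ + τ : ℤ) : ℝ) ≤ 2 * D := fun τ hτ =>
    ⟨(h𝒟 _ (hTm τ hτ)).1, (h𝒟 _ (hTm τ hτ)).2.1⟩
  have hd0pos : 1 ≤ d₀ := by
    have : (1 : ℝ) ≤ d₀ := hD1.trans hd0R.1
    exact_mod_cast this
  obtain ⟨W, hW⟩ : ∃ W, W = D ^ σ := ⟨_, rfl⟩
  have hW1 : 1 ≤ W := hV1.trans (hW ▸ hVD)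
  have hVW : V ≤ W := hW ▸ hVD
  obtain ⟨H, hH⟩ : ∃ H, H = 8 * (W * D ^ 2) := ⟨_, rfl⟩
  have hWD : 1 ≤ W * D ^ 2 := by nlinarith
  have hH1 : 1 ≤ H := by rw [hH]; linarith
  have hND : |(N : ℝ)| ≤ D := by
    refine hNb.trans ?_
    have := Real.rpow_le_rpow_of_exponent_le hD1 (by norm_num : (1 : ℝ) / 8 ≤ 1)
    rwa [Real.rpow_one] at this
  -- sizes
  have hLm : ∀ j ≤ m, L ^ j ≤ D := by
    intro j hj
    refine (pow_le_pow_right₀ hL1 hj).trans ?_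
    rw [hL, ← Real.rpow_natCast, ← Real.rpow_mul hDpos.le]
    have h1 : 1 / (8 * (m : ℝ)) * m ≤ 1 := by
      rw [div_mul_eq_mul_div, one_mul, div_le_one (by positivity)]
      linarith
    have := Real.rpow_le_rpow_of_exponent_le hD1 h1
    rwa [Real.rpow_one] at this
  have hxR : ∀ τ ∈ T, |(x (d₀ + τ) : ℝ)| ≤ 3 * (W * D) := by
    intro τ hτ
    obtain ⟨hx1, hcp, heq, hyV, hyV2⟩ := hX τ hτ
    have h1 : (x (d₀ + τ) : ℝ) ^ 2 - ((d₀ + τ : ℤ) : ℝ) * (y (d₀ + τ) : ℝ) ^ 2 = N := by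
      exact_mod_cast heq
    have h2 := (hdR τ hτ).2
    have h3 : (0 : ℝ) ≤ y (d₀ + τ) := by linarith
    have h4 : (y (d₀ + τ) : ℝ) ^ 2 ≤ (2 * W) ^ 2 := pow_le_pow_left₀ h3 (by linarith) 2
    have h5 : ((d₀ + τ : ℤ) : ℝ) * (y (d₀ + τ) : ℝ) ^ 2 ≤ 2 * D * (2 * W) ^ 2 :=
      mul_le_mul h2 h4 (by positivity) (by positivity)
    refine abs_le_of_sq_le_sq ?_ (by positivity)
    have h6 : 1 ≤ W ^ 2 := by nlinarith
    have h7 : D ≤ D ^ 2 := by nlinarith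
    have h8 : W ^ 2 * D ≤ W ^ 2 * D ^ 2 := by nlinarith
    have h9 : D ≤ W ^ 2 * D ^ 2 := by nlinarith
    have h10 : (N : ℝ) ≤ D := (le_abs_self _).trans hND
    nlinarith
  have hyR : ∀ τ ∈ T, |(y (d₀ + τ) : ℝ)| ≤ 2 * W := by
    intro τ hτ
    obtain ⟨-, -, -, hyV, hyV2⟩ := hX τ hτ
    rw [abs_of_nonneg (by linarith)]
    linarith
  have hτj : ∀ τ ∈ T, ∀ j ≤ m, |(τ : ℝ) ^ j| ≤ D := by
    intro τ hτ j hj
    rw [abs_pow]
    exact (pow_le_pow_left₀ (abs_nonneg _) (hτL τ hτ) j).trans (hLm j hj)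
  have hHx : ∀ τ ∈ T, ∀ j < m, |((x (d₀ + τ) * τ ^ j : ℤ) : ℝ)| ≤ H ∧
      |((y (d₀ + τ) * τ ^ j : ℤ) : ℝ)| ≤ H := by
    intro τ hτ j hj
    push_cast
    rw [abs_mul, abs_mul, hH]
    have h1 := mul_le_mul (hxR τ hτ) (hτj τ hτ j hj.le) (abs_nonneg _) (by positivity)
    have h2 := mul_le_mul (hyR τ hτ) (hτj τ hτ j hj.le) (abs_nonneg _) (by positivity)
    have h3 : W * D ≤ W * D ^ 2 := by nlinarith [mul_pos (by linarith : 0 < W) hDpos]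
    constructor
    · refine h1.trans ?_
      nlinarith
    · refine h2.trans ?_
      nlinarith
  -- the bound of all sizes
  obtain ⟨z, hz⟩ : ∃ z, z = D ^ ((1 : ℝ) / 8) := ⟨_, rfl⟩
  have hz1 : 1 ≤ z := by rw [hz]; exact Real.one_le_rpow hD1 (by norm_num)
  have hzD : z ≤ D := by
    have := Real.rpow_le_rpow_of_exponent_le hD1 (by norm_num : (1 : ℝ) / 8 ≤ 1)
    rw [Real.rpow_one] at this
    rwa [hz]
  have hbig : 2 * z * ((m : ℝ) + 1) * (2 * ((m : ℝ) + 1) * H) ^ (2 * (m + 1)) * (L + d₀) ^ m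
      ≤ Real.exp Λ := by
    rw [hH, hW, hL, hΛ]
    exact bnd_exp D σ z d₀ m hm hD1 hlm hσle hz1 hzD (by linarith) hd0R.2
  -- the determinants vanish
  have hdet : ∀ f : Fin m ⊕ Fin m → ℤ, (∀ i, f i ∈ T) →
      (Mat m (fun i => x (d₀ + f i)) (fun i => y (d₀ + f i)) f).det = 0 := by
    intro f hf
    have h1 := hPV m D V σ d₀ (fun i => x (d₀ + f i)) (fun i => y (d₀ + f i)) (fun i => d₀ + f i) hm
      (by linarith) hσ0 hσm hC7m hV1 hVD hd0R.1 hd0R.2 (fun i => hdR _ (hf i)) (fun i => ?_)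
      (fun i => (hX _ (hf i)).2.2.2) (fun i => (hX _ (hf i)).1) (fun i => ?_)
    · have e : (fun i => d₀ + f i - d₀) = f := by
        funext i
        ring
      rwa [e] at h1
    · have h2 := hτL _ (hf i)
      push_cast
      rw [add_sub_cancel_left, ← hL]
      exact h2
    · have h2 := (hX _ (hf i)).2.2.1
      rw [h2]
      exact hNb
  obtain ⟨T', hT'T, hT'c, A, B, hAB, hAd, hBd, hAc, hBc, hcop, hrel⟩ :=
    hMIN m hm T (fun τ => x (d₀ + τ)) (fun τ => y (d₀ + τ)) H hH1 hHx hdet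
  have hT'c' : ((T \ T').card : ℝ) ≤ (m : ℝ) ^ 2 := by exact_mod_cast hT'c
  have hcard : (T.card : ℝ) ≤ T'.card + (m : ℝ) ^ 2 := by
    have h1 := Finset.card_sdiff_add_card_eq_card hT'T
    have h2 : (T.card : ℝ) = ((T \ T').card : ℝ) + T'.card := by exact_mod_cast h1.symm
    linarith
  -- the points
  have hg : ∀ τ ∈ T', ∃ g : ℤ, A.eval τ = y (d₀ + τ) * g ∧ B.eval τ = - x (d₀ + τ) * g := by
    intro τ hτ
    have h1 := hrel τ hτ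
    obtain ⟨hx1, hcp, heq, -⟩ := hX τ (hT'T hτ)
    have h2 : y (d₀ + τ) ∣ x (d₀ + τ) * A.eval τ := by
      refine ⟨-B.eval τ, ?_⟩
      linear_combination h1
    obtain ⟨g, hg⟩ := hcp.symm.dvd_of_dvd_mul_left h2
    have hy0 : y (d₀ + τ) ≠ 0 := by
      have := hy1 τ (hT'T hτ)
      omega
    refine ⟨g, hg, ?_⟩
    apply mul_left_cancel₀ hy0
    rw [hg] at h1
    linear_combination h1
  have hNS : NonSq (C N * (B ^ 2 - (C d₀ + X) * A ^ 2)) := Pool.Agent.Q276.PL.nsq A B d₀ N hcop hNsq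
  have hdeg : (C N * (B ^ 2 - (C d₀ + X) * A ^ 2)).natDegree ≤ 2 * m :=
    (Polynomial.natDegree_C_mul_le _ _).trans (deg_G A B d₀ m hAd hBd)
  have h1 := hCUQ (C N * (B ^ 2 - (C d₀ + X) * A ^ 2)) (2 * m) hdeg hNS L Λ hL1 hΛ1
      (by push_cast; linarith) T' (fun τ hτ => hτL τ (hT'T hτ)) (fun τ hτ => by
        obtain ⟨g, hgA, hgB⟩ := hg τ hτ
        obtain ⟨hx1, hcp, heq, -⟩ := hX τ (hT'T hτ)
        refine ⟨N * g, ?_, ?_⟩
        · rw [Polynomial.eval_mul, Polynomial.eval_C, Polynomial.eval_sub, Polynomial.eval_mul,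
            Polynomial.eval_pow, Polynomial.eval_pow,
            Polynomial.eval_add, Polynomial.eval_C, Polynomial.eval_X, hgA, hgB]
          linear_combination (-N * g ^ 2) * heq
        · have h2 := val_bnd A m _ L τ hAd hAc hL1 (hτL τ (hT'T hτ))
          have h3 : |(g : ℝ)| ≤ |((A.eval τ : ℤ) : ℝ)| := by
            rw [hgA]
            push_cast
            rw [abs_mul]
            have hyy := hy1 τ (hT'T hτ)
            have h4 : (1 : ℝ) ≤ |(y (d₀ + τ) : ℝ)| := by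
              rw [abs_of_nonneg (by exact_mod_cast (by omega : (0 : ℤ) ≤ y (d₀ + τ)))]
              exact_mod_cast hyy
            nlinarith [abs_nonneg (g : ℝ)]
          push_cast
          rw [abs_mul]
          refine le_trans (mul_le_mul hNb (h3.trans h2) (abs_nonneg _) (by positivity)) ?_
          refine le_trans ?_ hbig
          rw [← hz]
          have h6 : (2 * (m : ℝ) * H) ^ (2 * m) ≤ (2 * ((m : ℝ) + 1) * H) ^ (2 * (m + 1)) := by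
            have h7 : 2 * (m : ℝ) * H ≤ 2 * ((m : ℝ) + 1) * H := by nlinarith
            have h8 : 1 ≤ 2 * ((m : ℝ) + 1) * H := by nlinarith
            exact (pow_le_pow_left₀ (by positivity) h7 _).trans
              (pow_le_pow_right₀ h8 (by omega))
          have h9 : L ^ m ≤ (L + d₀) ^ m := pow_le_pow_left₀ (by linarith) (by linarith) m
          have h5 : z * (m : ℝ) ≤ 2 * z * ((m : ℝ) + 1) := by nlinarith
          have e : z * ((m : ℝ) * (2 * m * H) ^ (2 * m) * L ^ m) =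
              z * (m : ℝ) * (2 * m * H) ^ (2 * m) * L ^ m := by ring
          rw [e]
          exact mul_le_mul (mul_le_mul h5 h6 (by positivity) (by positivity)) h9 (by positivity)
            (by positivity))
  have h2 : 200000 * √L * Λ ^ 2 * Real.log (120 * √L * Λ) ≤ 200000 * √L * Λ ^ 2 * (2 * Λ) :=
    mul_le_mul_of_nonneg_left hlog (by positivity)
  have h4 : 200000 * √L * Λ ^ 2 * (2 * Λ) = 400000 * √L * Λ ^ 3 := by ring
  rw [h4] at h2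
  linarith

end Pool.Agent.U916.GN
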